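import Mathlib

namespace Pool.Agent.Results.MP_50e72c_co.Burn

open Finset

variable {V : Type} [Fintype V] [DecidableEq V]

/-- one round of propagation -/
def step (E : Finset (Finset V)) (B : Finset V) : Finset V :=
  B ∪ univ.filter fun v => ∃ e ∈ E, 2 ≤ #e ∧ v ∈ e ∧ e.erase v ⊆ B

/-- starting from the burned set `B`, the list of sources burns everything -/
def Burns (E : Finset (Finset V)) : Finset V → List V → Prop
  | B, [] => B = univ
  | B, u :: l => u ∉ B ∧ Burns E (insert u (step E B)) l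

def Lazy (E : Finset (Finset V)) (S : Finset V) : Prop := ∃ k, (step E)^[k] S = univ

instance dec (E : Finset (Finset V)) : ∀ B l, Decidable (Burns E B l)
  | B, [] => inferInstanceAs (Decidable (B = univ))
  | B, u :: l => @instDecidableAnd (u ∉ B) _ _ (dec E (insert u (step E B)) l)

def E : Finset (Finset (Fin 6)) := {{0, 1, 2}, {0, 3, 5}, {1, 4, 5}, {2, 4, 5}}

theorem result : ∃ (n : ℕ) (E : Finset (Finset (Fin (n + 1)))) (l : List (Fin (n + 1))),
    Burns E ∅ l ∧ (∀ l', Burns E ∅ l' → l.length ≤ l'.length) ∧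
      ∀ S ⊆ l.toFinset, ¬(Lazy E S ∧ ∀ T, Lazy E T → #S ≤ #T) := by
  refine ⟨5, E, [0, 3, 1, 2], by decide +kernel, ?_, ?_⟩
  · rintro (_ | ⟨a, _ | ⟨b, _ | ⟨c, _ | ⟨d, l⟩⟩⟩⟩) h
    · exact absurd h (by decide +kernel)
    · exact absurd h (by clear h; revert a; decide +kernel)
    · exact absurd h (by clear h; revert a b; decide +kernel)
    · exact absurd h (by clear h; revert a b c; decide +kernel)
    · simp
  · rintro S hS ⟨⟨k, hk⟩, h⟩
    have h2 : #S ≤ 2 := h {4, 5} ⟨3, by decide +kernel⟩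
    have : ∀ S ⊆ ([0, 3, 1, 2] : List (Fin 6)).toFinset, #S ≤ 2 →
        step E (step E S) = step E S ∧ step E S ≠ univ ∧ S ≠ univ := by decide +kernel
    obtain ⟨a, b, c⟩ := this S hS h2
    rcases k with _ | k
    · exact c hk
    · exact b (by rwa [Function.iterate_succ_apply, Function.iterate_fixed a] at hk)

end Pool.Agent.Results.MP_50e72c_co.Burn
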